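import Mathlib
import Pool.Agent.L7h86.LP.Stm

/-!
# Project LP (helper86, MP_feab4e_co Q2): S_INIT, the first chain
-/

set_option autoImplicit false

namespace Pool.Agent.L7h46.LP

open Finset Classical Pool.Agent.L7h86.LP
open Pool.Agent.K7.H44.LP (NoP5 Longest comp NC phi nc Sys theSys)

universe u

variable {V : Type u}

lemma init_core {G : SimpleGraph V} {C J : Set V} {A M E : List V} {b₁ v₁ b₂ v₂ : V}
    (hQ : (A ++ b₁ :: v₁ :: (M ++ b₂ :: v₂ :: E)).IsChain
      (fun x y => G.Adj x y ∧ ¬ (Nn G C x ∧ Nn G C y)))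
    (hhead : ∀ x ∈ (A ++ b₁ :: v₁ :: (M ++ b₂ :: v₂ :: E)).head?, ¬ Nn G C x)
    (hlast : ∀ x ∈ (A ++ b₁ :: v₁ :: (M ++ b₂ :: v₂ :: E)).getLast?, ¬ Nn G C x)
    (hb₁ : b₁ ∈ J) (hb₂ : b₂ ∈ J) :
    ∃ T : List (K V), T.IsChain (fun x y => R G J x y ∧ ¬ (isN G C x ∧ isN G C y)) ∧
      T.Perm (K.om :: K.inf :: (A ++ b₁ :: v₁ :: (M ++ b₂ :: v₂ :: E)).map K.v) ∧
      T.head? = some (K.v v₁) ∧ T.getLast? = some (K.v v₂) := by
  refine ⟨(v₁ :: (M ++ [b₂])).map K.v ++ K.om :: ((b₁ :: A.reverse).map K.v ++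
    K.inf :: (E.reverse ++ [v₂]).map K.v), ?_, ?_, ?_, ?_⟩
  · -- the chain
    set RR : K V → K V → Prop := fun x y => R G J x y ∧ ¬ (isN G C x ∧ isN G C y) with hRR
    have hv : ∀ x y : V, (G.Adj x y ∧ ¬ (Nn G C x ∧ Nn G C y)) → RR (K.v x) (K.v y) := by
      intro x y h
      exact ⟨h.1, h.2⟩
    have hv' : ∀ x y : V, (G.Adj x y ∧ ¬ (Nn G C x ∧ Nn G C y)) → RR (K.v y) (K.v x) := by
      intro x y h
      exact ⟨h.1.symm, fun h' => h.2 ⟨h'.2, h'.1⟩⟩
    -- parts of `Q`
    have q1 : (v₁ :: (M ++ [b₂])).IsChain (fun x y => G.Adj x y ∧ ¬ (Nn G C x ∧ Nn G C y)) := by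
      have h1 := (List.isChain_append_cons_cons.1 hQ).2.2
      have h2 : (v₁ :: M ++ b₂ :: v₂ :: E).IsChain
        (fun x y => G.Adj x y ∧ ¬ (Nn G C x ∧ Nn G C y)) := by simpa using h1
      have h3 := (List.isChain_append_cons_cons.1 h2).1
      simpa using h3
    have q2 : (A ++ [b₁]).IsChain (fun x y => G.Adj x y ∧ ¬ (Nn G C x ∧ Nn G C y)) :=
      (List.isChain_append_cons_cons.1 hQ).1
    have q3 : (v₂ :: E).IsChain (fun x y => G.Adj x y ∧ ¬ (Nn G C x ∧ Nn G C y)) := by
      have h1 := (List.isChain_append_cons_cons.1 hQ).2.2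
      have h2 : (v₁ :: M ++ b₂ :: v₂ :: E).IsChain
        (fun x y => G.Adj x y ∧ ¬ (Nn G C x ∧ Nn G C y)) := by simpa using h1
      exact (List.isChain_append_cons_cons.1 h2).2.2
    have p1 : ((v₁ :: (M ++ [b₂])).map K.v).IsChain RR := by
      rw [List.isChain_map]
      exact q1.imp fun x y h => hv x y h
    have p2 : ((b₁ :: A.reverse).map K.v).IsChain RR := by
      have : b₁ :: A.reverse = (A ++ [b₁]).reverse := by simp
      rw [this, List.isChain_map, List.isChain_reverse]
      exact q2.imp fun x y h => hv' x y h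
    have p3 : ((E.reverse ++ [v₂]).map K.v).IsChain RR := by
      have : E.reverse ++ [v₂] = (v₂ :: E).reverse := by simp
      rw [this, List.isChain_map, List.isChain_reverse]
      exact q3.imp fun x y h => hv' x y h
    rw [List.isChain_append]
    refine ⟨p1, ?_, ?_⟩
    · rw [List.isChain_cons]
      refine ⟨?_, ?_⟩
      · intro y hy
        have : y = K.v b₁ := by simpa using hy.symm
        rw [this]
        exact ⟨hb₁, fun h => h.1⟩
      · rw [List.isChain_append]
        refine ⟨p2, ?_, ?_⟩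
        · rw [List.isChain_cons]
          refine ⟨?_, p3⟩
          intro y hy
          obtain ⟨x, hx, hxy⟩ : ∃ x, x ∈ (E.reverse ++ [v₂]).head? ∧ K.v x = y := by
            rw [List.head?_map] at hy
            simpa using hy
          have hx2 : x ∈ (A ++ b₁ :: v₁ :: (M ++ b₂ :: v₂ :: E)).getLast? := by
            have e1 : (E.reverse ++ [v₂]).head? = (v₂ :: E).getLast? := by
              have : E.reverse ++ [v₂] = (v₂ :: E).reverse := by simp
              rw [this, List.head?_reverse]
            rw [e1] at hx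
            have e2 : (A ++ b₁ :: v₁ :: (M ++ b₂ :: v₂ :: E)) =
                (A ++ b₁ :: v₁ :: (M ++ [b₂])) ++ (v₂ :: E) := by simp
            rw [e2, List.getLast?_append]
            have : (v₂ :: E).getLast? = some x := hx
            rw [this]
            simp
          rw [← hxy]
          exact ⟨trivial, fun h => hlast x hx2 h.2⟩
        · intro x hx y hy
          have hy' : y = K.inf := by simpa using hy.symm
          rw [hy']
          obtain ⟨x', hx', hxy⟩ : ∃ x', x' ∈ (b₁ :: A.reverse).getLast? ∧ K.v x' = x := by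
            rw [List.getLast?_map] at hx
            simpa using hx
          have hx2 : x' ∈ (A ++ b₁ :: v₁ :: (M ++ b₂ :: v₂ :: E)).head? := by
            have e1 : (b₁ :: A.reverse).getLast? = (A ++ [b₁]).head? := by
              have : b₁ :: A.reverse = (A ++ [b₁]).reverse := by simp
              rw [this, List.getLast?_reverse]
            rw [e1] at hx'
            have e2 : (A ++ b₁ :: v₁ :: (M ++ b₂ :: v₂ :: E)) =
                (A ++ [b₁]) ++ (v₁ :: (M ++ b₂ :: v₂ :: E)) := by simp
            rw [e2, List.head?_append]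
            have : (A ++ [b₁]).head? = some x' := hx'
            rw [this]
            simp
          rw [← hxy]
          exact ⟨trivial, fun h => hhead x' hx2 h.1⟩
    · intro x hx y hy
      have hy' : y = K.om := by simpa using hy.symm
      have hx' : x = K.v b₂ := by
        rw [List.getLast?_map] at hx
        simp only [List.getLast?_cons, List.getLast?_append, List.getLast?_singleton] at hx
        simpa using hx.symm
      rw [hy', hx']
      exact ⟨hb₂, fun h => h.2⟩
  · rw [List.perm_iff_count]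
    intro a
    simp only [List.map_append, List.map_cons, List.map_reverse, List.map_nil, List.count_append,
      List.count_cons, List.count_nil, List.count_reverse]
    omega
  · simp
  · simp [List.getLast?_append, List.getLast?_cons]

lemma init_ordered {G : SimpleGraph V} {C J : Set V} {Q : List V} {x0 : V}
    (hQ : Q.IsChain (fun x y => G.Adj x y ∧ ¬ (Nn G C x ∧ Nn G C y)))
    (hhead : ∀ x ∈ Q.head?, ¬ Nn G C x) (hlast : ∀ x ∈ Q.getLast?, ¬ Nn G C x)
    {i j : ℕ} (hij : i + 2 ≤ j) (hj : j + 1 < Q.length)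
    (h1 : Q.getD i x0 ∈ J) (h2 : Q.getD j x0 ∈ J) :
    ∃ T : List (K V), T.IsChain (fun x y => R G J x y ∧ ¬ (isN G C x ∧ isN G C y)) ∧
      T.Perm (K.om :: K.inf :: Q.map K.v) ∧
      T.head? = some (K.v (Q.getD (i + 1) x0)) ∧ T.getLast? = some (K.v (Q.getD (j + 1) x0)) := by
  have hdec : Q = Q.take i ++ Q.getD i x0 :: Q.getD (i + 1) x0 :: ((Q.drop (i + 2)).take (j - (i + 2)) ++
      Q.getD j x0 :: Q.getD (j + 1) x0 :: Q.drop (j + 2)) := by
    rw [List.getD_eq_getElem _ _ hj, List.getD_eq_getElem _ _ (show i + 1 < Q.length by omega),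
      List.getD_eq_getElem _ _ (show i < Q.length by omega),
      List.getD_eq_getElem _ _ (show j < Q.length by omega)]
    rw [← List.drop_eq_getElem_cons hj, ← List.drop_eq_getElem_cons (by omega)]
    have h2 : Q.drop j = (Q.drop (i + 2)).drop (j - (i + 2)) := by
      rw [List.drop_drop]
      congr 1
      omega
    rw [h2, List.take_append_drop, ← List.drop_eq_getElem_cons (by omega),
      ← List.drop_eq_getElem_cons (by omega), List.take_append_drop]
  rw [hdec] at hQ hhead hlast
  obtain ⟨T, t1, t2, t3, t4⟩ := init_core hQ hhead hlast h1 h2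
  exact ⟨T, t1, by rw [← hdec] at t2; exact t2, t3, t4⟩

theorem s_INIT : S_INIT.{u} := by
  intro V G C J Q x0 hL hx0 hC b₁ v₁ b₂ v₂ i j hi hj hij e1 e2 e3 e4 hb₁ hb₂ n₁ n₂ g₁ g₂
  have S := theSys hL x0
  rw [← hC] at S
  have hpos : 0 < Q.length := by omega
  have hchain : Q.IsChain (fun x y => G.Adj x y ∧ ¬ (Nn G C x ∧ Nn G C y)) := by
    rw [List.isChain_iff_getElem]
    intro k hk
    refine ⟨?_, ?_⟩
    · have := S.adj k hk
      simp only [List.getD_eq_getElem _ _ hk,
        List.getD_eq_getElem _ _ (show k < Q.length by omega)] at this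
      exact this
    · rintro ⟨⟨_, c, hc, hcx⟩, ⟨_, c', hc', hcy⟩⟩
      have := S.h1 k hk c hc c' hc'
      simp only [List.getD_eq_getElem _ _ hk,
        List.getD_eq_getElem _ _ (show k < Q.length by omega)] at this
      exact this hcx hcy
  have hhead : ∀ x ∈ Q.head?, ¬ Nn G C x := by
    rintro x hx ⟨_, c, hc, hcx⟩
    have h0 := S.h0 c hc
    rw [List.head?_eq_getElem?, List.getElem?_eq_getElem hpos] at hx
    have hx' : Q[0] = x := by simpa using hx
    simp only [List.getD_eq_getElem _ _ hpos] at h0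
    rw [hx'] at h0
    exact h0 hcx
  have hlast : ∀ x ∈ Q.getLast?, ¬ Nn G C x := by
    rintro x hx ⟨_, c, hc, hcx⟩
    have h0 := S.hL c hc
    rw [List.getLast?_eq_getElem?, List.getElem?_eq_getElem (by omega)] at hx
    have hx' : Q[Q.length - 1] = x := by simpa using hx
    simp only [List.getD_eq_getElem _ _ (show Q.length - 1 < Q.length by omega)] at h0
    rw [hx'] at h0
    exact h0 hcx
  have hsplit : ∀ T : List (K V), T.IsChain (fun x y => R G J x y ∧ ¬ (isN G C x ∧ isN G C y)) →
      T.IsChain (R G J) ∧ T.IsChain (fun x y => ¬ (isN G C x ∧ isN G C y)) := fun T h =>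
    ⟨h.imp fun _ _ h => h.1, h.imp fun _ _ h => h.2⟩
  rcases lt_or_gt_of_ne hij with h | h
  · have h2 : i + 2 ≤ j := by
      by_contra hcon
      have : j = i + 1 := by omega
      subst this
      rw [e2] at e3
      obtain ⟨_, c, hc, hcb⟩ := n₂
      rw [← e3] at hcb
      exact g₁.2 c hc hcb
    obtain ⟨T, t1, t2, t3, t4⟩ := init_ordered (x0 := x0) hchain hhead hlast h2 hj
      (by rw [e1]; exact hb₁) (by rw [e3]; exact hb₂)
    exact ⟨T, (hsplit T t1).1, (hsplit T t1).2, t2, Or.inl ⟨by rw [t3, e2], by rw [t4, e4]⟩⟩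
  · have h2 : j + 2 ≤ i := by
      by_contra hcon
      have : i = j + 1 := by omega
      subst this
      rw [e4] at e1
      obtain ⟨_, c, hc, hcb⟩ := n₁
      rw [← e1] at hcb
      exact g₂.2 c hc hcb
    obtain ⟨T, t1, t2, t3, t4⟩ := init_ordered (x0 := x0) hchain hhead hlast h2 hi
      (by rw [e3]; exact hb₂) (by rw [e1]; exact hb₁)
    exact ⟨T, (hsplit T t1).1, (hsplit T t1).2, t2, Or.inr ⟨by rw [t3, e4], by rw [t4, e2]⟩⟩

end Pool.Agent.L7h46.LP
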