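import Mathlib
import Pool.Agent.L7h86.LP.Stm

/-!
# Project LP (helper86, MP_feab4e_co Q2): S_NC and S_SE
-/

set_option autoImplicit false

namespace Pool.Agent.L7h46.LP

open Finset Classical Pool.Agent.L7h86.LP
open Pool.Agent.K7.H44.LP (NoP5 Longest comp NC phi nc Sys theSys)

universe u

variable {V : Type u}

/-- rotate a closed chain and drop an element -/
lemma rot {A : Type u} {R : A → A → Prop} {T X Y : List A} {a x y : A} (hT : T.IsChain R)
    (hx : T.head? = some x) (hy : T.getLast? = some y) (hyx : R y x) (h : T = X ++ a :: Y) :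
    (Y ++ X).IsChain R := by
  subst h
  rw [List.isChain_append] at hT ⊢
  refine ⟨(List.isChain_cons.1 hT.2.1).2, hT.1, ?_⟩
  intro p hp q hq
  have h1 : p = y := by
    have hp' : Y.getLast? = some p := hp
    rw [List.getLast?_append, List.getLast?_cons, hp'] at hy
    simpa using hy
  have h2 : q = x := by
    have hq' : X.head? = some q := hq
    rw [List.head?_append, hq'] at hx
    simpa using hx
  rw [h1, h2]
  exact hyx

lemma lift_v {L : List (K V)} (h : ∀ a ∈ L, ∃ x, a = K.v x) : ∃ L' : List V, L = L'.map K.v := by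
  induction L with
  | nil => exact ⟨[], rfl⟩
  | cons a L ih =>
    obtain ⟨L', hL'⟩ := ih fun b hb => h b (List.mem_cons_of_mem _ hb)
    obtain ⟨x, hx⟩ := h a List.mem_cons_self
    exact ⟨x :: L', by rw [hL', hx, List.map_cons]⟩

lemma v_inj : Function.Injective (K.v : V → K V) := fun _ _ h => K.v.inj h

theorem s_NC : S_NC.{u} := by
  intro V G C J Q c c' hL hC hc hc' hcc hJ T Q' hT hperm hQ' hnd hlen x y hx hy hyx
  have hinf : K.inf ∈ T := hperm.mem_iff.2 (by simp)
  obtain ⟨X, Y, hXY⟩ := List.append_of_mem hinf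
  have hch := rot hT hx hy hyx hXY
  have hp1 : (Y ++ X).Perm (K.om :: Q'.map K.v) := by
    have h1 : (K.inf :: (Y ++ X)).Perm (K.inf :: (K.om :: Q'.map K.v)) := by
      have a1 : (K.inf :: (Y ++ X)).Perm T := by
        rw [hXY]
        have a2 : (K.inf :: (Y ++ X)).Perm (K.inf :: (X ++ Y)) :=
          List.Perm.cons _ List.perm_append_comm
        exact a2.trans List.perm_middle.symm
      exact (a1.trans hperm).trans (List.Perm.swap _ _ _)
    exact (List.perm_cons _).1 h1
  have hom : K.om ∈ Y ++ X := hp1.mem_iff.2 (by simp)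
  obtain ⟨X', Y', hXY'⟩ := List.append_of_mem hom
  rw [hXY'] at hch hp1
  have hp2 : (X' ++ Y').Perm (Q'.map K.v) := by
    have h1 : (K.om :: (X' ++ Y')).Perm (K.om :: Q'.map K.v) := List.perm_middle.symm.trans hp1
    exact (List.perm_cons _).1 h1
  have hmem : ∀ a ∈ X' ++ Y', ∃ z, a = K.v z := by
    intro a ha
    have := hp2.mem_iff.1 ha
    obtain ⟨z, _, hz⟩ := List.mem_map.1 this
    exact ⟨z, hz.symm⟩
  obtain ⟨X2, hX2⟩ := lift_v fun a ha => hmem a (List.mem_append_left _ ha)
  obtain ⟨Y2, hY2⟩ := lift_v fun a ha => hmem a (List.mem_append_right _ ha)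
  subst hX2
  subst hY2
  rw [← List.map_append, List.map_perm_map_iff v_inj] at hp2
  have hch2 : (X2 ++ c :: c' :: Y2).IsChain G.Adj := by
    rw [List.isChain_append] at hch ⊢
    obtain ⟨h1, h2, h3⟩ := hch
    rw [List.isChain_map] at h1
    rw [List.isChain_cons, List.isChain_map] at h2
    refine ⟨h1, ?_, ?_⟩
    · rw [List.isChain_cons_cons, List.isChain_cons]
      refine ⟨hcc, ?_, h2.2⟩
      intro z hz
      have hz' : K.v z ∈ (Y2.map K.v).head? := by
        rw [List.head?_map]
        have : Y2.head? = some z := hz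
        rw [this]
        simp
      have := h2.1 _ hz'
      exact (hJ z this).2.symm
    · intro p hp q hq
      have hq' : q = c := by simpa using hq.symm
      rw [hq']
      have hp' : K.v p ∈ (X2.map K.v).getLast? := by
        rw [List.getLast?_map]
        have : X2.getLast? = some p := hp
        rw [this]
        simp
      have := h3 _ hp' K.om (by simp)
      exact (hJ p this).1
  have hnd2 : (X2 ++ c :: c' :: Y2).Nodup := by
    have h1 : (X2 ++ c :: c' :: Y2).Perm (c :: c' :: Q') := by
      have a1 : (X2 ++ c :: c' :: Y2).Perm (c :: (X2 ++ c' :: Y2)) := List.perm_middle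
      have a2 : (X2 ++ c' :: Y2).Perm (c' :: (X2 ++ Y2)) := List.perm_middle
      exact a1.trans (List.Perm.cons _ (a2.trans (List.Perm.cons _ hp2)))
    rw [h1.nodup_iff, List.nodup_cons, List.nodup_cons]
    refine ⟨?_, fun h => hQ' c' h hc', hnd⟩
    intro h
    rcases List.mem_cons.1 h with h | h
    · exact hcc.ne h
    · exact hQ' c h hc
  have hfin := hL.2.2 _ hch2 hnd2
  have hlen2 : (X2 ++ c :: c' :: Y2).length = Q'.length + 2 := by
    have := hp2.length_eq
    rw [List.length_append] at this
    rw [List.length_append, List.length_cons, List.length_cons]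
    omega
  omega

theorem s_SE : S_SE.{u} := by
  intro V G C J Q hL hC hJ T y n hT hperm hy hn hNn hyJ
  obtain ⟨_, c, hc, hcn⟩ := hNn
  have hom : K.om ∈ T := hperm.mem_iff.2 (by simp)
  obtain ⟨X, Y, hXY⟩ := List.append_of_mem hom
  subst hXY
  rw [List.isChain_append, List.isChain_cons] at hT
  obtain ⟨h1, ⟨h2, h3⟩, h4⟩ := hT
  have hXne : X ≠ [] := by
    rintro rfl
    simp at hy
  have hYne : Y ≠ [] := by
    rintro rfl
    simp [List.getLast?_append] at hn
  have hp1 : (X ++ Y).Perm (K.inf :: Q.map K.v) := by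
    have a1 : (K.om :: (X ++ Y)).Perm (K.om :: (K.inf :: Q.map K.v)) :=
      List.perm_middle.symm.trans hperm
    exact (List.perm_cons _).1 a1
  have hXh : X.head? = some (K.v y) := by
    rw [List.head?_append] at hy
    obtain ⟨x, X', rfl⟩ := List.exists_cons_of_ne_nil hXne
    simpa using hy
  have hYl : Y.getLast? = some (K.v n) := by
    rw [List.getLast?_append, List.getLast?_cons] at hn
    obtain ⟨z, hz⟩ : ∃ z, Y.getLast? = some z := by
      cases h : Y.getLast? with
      | none => exact absurd (List.getLast?_eq_none_iff.1 h) hYne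
      | some z => exact ⟨z, rfl⟩
    rw [hz] at hn ⊢
    simpa using hn
  -- the closed chain
  set T2 := X ++ K.v c :: Y.reverse with hT2
  have hRsymm : ∀ a b : K V, R G J a b → R G J b a := by
    intro a b h
    rcases a with a | _ | _ <;> rcases b with b | _ | _ <;> first | exact h.symm | exact h
  have hch : T2.IsChain (R G J) := by
    rw [hT2, List.isChain_append, List.isChain_cons]
    refine ⟨h1, ⟨?_, ?_⟩, ?_⟩
    · intro z hz
      rw [List.head?_reverse, hYl] at hz
      have hz' : z = K.v n := by simpa using hz.symm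
      rw [hz']
      exact hcn
    · rw [List.isChain_reverse]
      exact h3.imp fun a b h => hRsymm _ _ h
    · intro p hp q hq
      have hq' : q = K.v c := by simpa using hq.symm
      rw [hq']
      have h5 := h4 p hp K.om (by simp)
      rcases p with p | _ | _
      · exact hJ p h5 c hc
      · exact h5.elim
      · exact h5.elim
  have hhead : T2.head? = some (K.v y) := by
    rw [hT2, List.head?_append, hXh]
    simp
  obtain ⟨z, hz⟩ : ∃ z, Y.head? = some z := by
    obtain ⟨z, Z, rfl⟩ := List.exists_cons_of_ne_nil hYne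
    exact ⟨z, rfl⟩
  have hlast : T2.getLast? = some z := by
    rw [hT2, List.getLast?_append, List.getLast?_cons, List.getLast?_reverse, hz]
    simp
  have hclose : R G J z (K.v y) := by
    have h5 := h2 z hz
    rcases z with z | _ | _
    · exact (hyJ z h5).symm
    · exact h5.elim
    · exact h5.elim
  have hinf : K.inf ∈ T2 := by
    have : K.inf ∈ X ++ Y := hp1.mem_iff.2 (by simp)
    rw [hT2]
    rcases List.mem_append.1 this with h | h
    · exact List.mem_append_left _ h
    · exact List.mem_append_right _ (List.mem_cons_of_mem _ (List.mem_reverse.2 h))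
  obtain ⟨X', Y', hXY'⟩ := List.append_of_mem hinf
  have hch2 := rot hch hhead hlast hclose hXY'
  have hp2 : (Y' ++ X').Perm ((c :: Q).map K.v) := by
    have a1 : (K.inf :: (Y' ++ X')).Perm T2 := by
      rw [hXY']
      have a2 : (K.inf :: (Y' ++ X')).Perm (K.inf :: (X' ++ Y')) :=
        List.Perm.cons _ List.perm_append_comm
      exact a2.trans List.perm_middle.symm
    have a3 : T2.Perm (K.v c :: (X ++ Y)) := by
      rw [hT2]
      refine List.perm_middle.trans (List.Perm.cons _ ?_)
      exact List.Perm.append_left _ (List.reverse_perm _)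
    have a4 : (K.inf :: (Y' ++ X')).Perm (K.inf :: (K.v c :: Q.map K.v)) :=
      (a1.trans (a3.trans (List.Perm.cons _ hp1))).trans (List.Perm.swap _ _ _)
    have a5 := (List.perm_cons _).1 a4
    rw [List.map_cons]
    exact a5
  obtain ⟨L, hLL⟩ := lift_v (L := Y' ++ X') fun a ha => by
    obtain ⟨w, _, hw⟩ := List.mem_map.1 (hp2.mem_iff.1 ha)
    exact ⟨w, hw.symm⟩
  rw [hLL] at hch2 hp2
  rw [List.map_perm_map_iff v_inj] at hp2
  rw [List.isChain_map] at hch2
  have hnd : L.Nodup := by
    rw [hp2.nodup_iff, List.nodup_cons]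
    exact ⟨hC c hc, hL.2.1⟩
  have h6 := hL.2.2 L hch2 hnd
  have h7 := hp2.length_eq
  rw [List.length_cons] at h7
  omega

end Pool.Agent.L7h46.LP
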